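import Mathlib

/-!
The energy barrier of a tensor product code can be smaller than `min (d_a E_b) (E_a d_b)`.
-/

namespace Pool.Agent.Results.MP_998457_co.BarrierCounterexample

open Matrix Kronecker

/-- The energy of `x`: the number of violated checks. -/
def energy {I J : Type} [Fintype I] [Fintype J] (δ : Matrix I J (ZMod 2)) (x : J → ZMod 2) : ℕ :=
  hammingNorm (δ *ᵥ x)

/-- `p 0, …, p F` is a path of single bit flips from `0` to `x`. -/
def IsPath {J : Type} [Fintype J] (F : ℕ) (p : ℕ → J → ZMod 2) (x : J → ZMod 2) : Prop :=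
  p 0 = 0 ∧ p F = x ∧ ∀ i, i < F → hammingDist (p i) (p (i + 1)) = 1

/-- The largest energy along a path. -/
def pathMax {I J : Type} [Fintype I] [Fintype J] (δ : Matrix I J (ZMod 2)) (F : ℕ)
    (p : ℕ → J → ZMod 2) : ℕ :=
  (Finset.range (F + 1)).sup (fun i => energy δ (p i))

/-- The energy barrier `Δ(x)` of `x`: the minimum over paths of the largest energy. -/
noncomputable def barrierTo {I J : Type} [Fintype I] [Fintype J] (δ : Matrix I J (ZMod 2))
    (x : J → ZMod 2) : ℕ :=
  sInf {e | ∃ (F : ℕ) (p : ℕ → J → ZMod 2), IsPath F p x ∧ pathMax δ F p = e}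

/-- The energy barrier of the code: the minimum of `Δ(x)` over nonzero codewords. -/
noncomputable def barrier {I J : Type} [Fintype I] [Fintype J] (δ : Matrix I J (ZMod 2)) : ℕ :=
  sInf {e | ∃ x : J → ZMod 2, x ≠ 0 ∧ δ *ᵥ x = 0 ∧ barrierTo δ x = e}

/-- The minimum distance of the code. -/
noncomputable def minDist {I J : Type} [Fintype I] [Fintype J] (δ : Matrix I J (ZMod 2)) : ℕ :=
  sInf {w | ∃ x : J → ZMod 2, x ≠ 0 ∧ δ *ᵥ x = 0 ∧ hammingNorm x = w}

/-- The parity-check matrix of the tensor product code: `δ_a ⊗ I` on top of `I ⊗ δ_b`. -/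
def tensorCheck {ma na mb nb : ℕ} (δa : Matrix (Fin ma) (Fin na) (ZMod 2))
    (δb : Matrix (Fin mb) (Fin nb) (ZMod 2)) :
    Matrix ((Fin ma × Fin nb) ⊕ (Fin na × Fin mb)) (Fin na × Fin nb) (ZMod 2) :=
  Matrix.fromRows (δa ⊗ₖ (1 : Matrix (Fin nb) (Fin nb) (ZMod 2)))
    ((1 : Matrix (Fin na) (Fin na) (ZMod 2)) ⊗ₖ δb)

/-- The constituent code. -/
def D : Matrix (Fin 3) (Fin 4) (ZMod 2) := !![1, 1, 0, 0; 1, 0, 1, 0; 1, 1, 1, 1]

theorem D_ker : ∀ x : Fin 4 → ZMod 2, x ≠ 0 → D *ᵥ x = 0 → x = fun _ => 1 := by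
  decide +kernel

theorem ones_ne : (fun _ => 1 : Fin 4 → ZMod 2) ≠ 0 := by
  decide +kernel

theorem D_ones : D *ᵥ (fun _ => 1 : Fin 4 → ZMod 2) = 0 := by
  decide +kernel

theorem minDist_D : minDist D = 4 := by
  have : {w | ∃ x : Fin 4 → ZMod 2, x ≠ 0 ∧ D *ᵥ x = 0 ∧ hammingNorm x = w} = {4} := by
    ext w
    constructor
    · rintro ⟨x, hx, hD, hw⟩
      rw [D_ker x hx hD] at hw
      rw [Set.mem_singleton_iff, ← hw]
      decide +kernel
    · intro hw
      rw [Set.mem_singleton_iff] at hw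
      exact ⟨fun _ => 1, ones_ne, D_ones, by rw [hw]; decide +kernel⟩
  unfold minDist
  rw [this]
  exact csInf_singleton 4

/-- The set of states reachable at energy at most one. -/
def inS (x : Fin 4 → ZMod 2) : Bool := x 0 = 0 ∧ (x 1 = 0 ∨ (x 2 = 0 ∧ x 3 = 1)) ∧
  (x 2 = 0 ∨ (x 1 = 0 ∧ x 3 = 1))

theorem S_step : ∀ x y : Fin 4 → ZMod 2, inS x = true → energy D x ≤ 1 → hammingDist x y = 1 →
    energy D y ≤ 1 → inS y = true := by
  unfold energy
  decide +kernel

theorem path_two (F : ℕ) (p : ℕ → Fin 4 → ZMod 2) (hp : IsPath F p (fun _ => 1)) :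
    2 ≤ pathMax D F p := by
  by_contra hcon
  have hle : ∀ i ≤ F, energy D (p i) ≤ 1 := by
    intro i hi
    have h1 : energy D (p i) ≤ pathMax D F p :=
      Finset.le_sup (f := fun i => energy D (p i)) (Finset.mem_range.2 (by omega))
    omega
  have hS : ∀ i ≤ F, inS (p i) = true := by
    intro i
    induction i with
    | zero =>
      intro _
      rw [hp.1]
      decide +kernel
    | succ i ih =>
      intro hi
      exact S_step (p i) (p (i + 1)) (ih (by omega)) (hle i (by omega)) (hp.2.2 i (by omega))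
        (hle (i + 1) hi)
  have h2 := hS F le_rfl
  rw [hp.2.1] at h2
  revert h2
  decide +kernel

/-- An explicit path `0 → 0001 → 0101 → 0111 → 1111` for `D`. -/
def pD : ℕ → Fin 4 → ZMod 2
  | 0 => 0
  | 1 => ![0, 0, 0, 1]
  | 2 => ![0, 1, 0, 1]
  | 3 => ![0, 1, 1, 1]
  | _ => fun _ => 1

theorem pD_path : IsPath 4 pD (fun _ => 1) := by
  refine ⟨rfl, rfl, ?_⟩
  decide +kernel

theorem barrier_D : 2 ≤ barrier D := by
  unfold barrier
  apply le_csInf
  · exact ⟨_, fun _ => 1, ones_ne, D_ones, rfl⟩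
  · rintro e ⟨x, hx, hD, rfl⟩
    rw [D_ker x hx hD]
    unfold barrierTo
    apply le_csInf
    · exact ⟨_, 4, pD, pD_path, rfl⟩
    · rintro e ⟨F, p, hp, rfl⟩
      exact path_two F p hp

/-- The list of states (as binary numbers) of the path for the product code. -/
def states : List ℕ :=
  [0, 32, 34, 50, 51, 115, 119, 247, 255, 767, 1023, 2047, 4095, 8191, 16383, 32767, 65535]

/-- The path for the product code. -/
def pP : ℕ → (Fin 4 × Fin 4) → ZMod 2 :=
  fun i ab => if (states.getD i 0).testBit (4 * ab.1.val + ab.2.val) then 1 else 0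

theorem pP_zero : pP 0 = 0 := by decide +kernel

theorem pP_step : ∀ i, i < 16 → hammingDist (pP i) (pP (i + 1)) = 1 := by
  decide +kernel

theorem pP_end : pP 16 = fun _ => 1 := by decide +kernel

theorem pP_energy : ∀ i, i < 17 → energy (tensorCheck D D) (pP i) ≤ 6 := by
  unfold energy
  decide +kernel

theorem barrier_product : barrier (tensorCheck D D) ≤ 6 := by
  have h1 : barrier (tensorCheck D D) ≤ barrierTo (tensorCheck D D) (fun _ => 1) := by
    unfold barrier
    apply Nat.sInf_le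
    refine ⟨fun _ => 1, ?_, ?_, rfl⟩
    · decide +kernel
    · decide +kernel
  have h2 : barrierTo (tensorCheck D D) (fun _ => 1) ≤ pathMax (tensorCheck D D) 16 pP := by
    unfold barrierTo
    apply Nat.sInf_le
    exact ⟨16, pP, ⟨pP_zero, pP_end, pP_step⟩, rfl⟩
  have h3 : pathMax (tensorCheck D D) 16 pP ≤ 6 := by
    unfold pathMax
    apply Finset.sup_le
    intro i hi
    exact pP_energy i (Finset.mem_range.1 hi)
  omega

/-- The inequality `Δ(δ_c) ≥ min (d_a E_b) (E_a d_b)` fails for some parity-check matrices. -/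
theorem result : ¬ ∀ (ma na mb nb : ℕ) (δa : Matrix (Fin ma) (Fin na) (ZMod 2))
    (δb : Matrix (Fin mb) (Fin nb) (ZMod 2)),
    (∃ x : Fin na → ZMod 2, x ≠ 0 ∧ δa *ᵥ x = 0) →
    (∃ x : Fin nb → ZMod 2, x ≠ 0 ∧ δb *ᵥ x = 0) →
    min (minDist δa * barrier δb) (barrier δa * minDist δb) ≤ barrier (tensorCheck δa δb) := by
  intro h
  have h1 := h 3 4 3 4 D D ⟨_, ones_ne, D_ones⟩ ⟨_, ones_ne, D_ones⟩
  rw [minDist_D] at h1
  have h2 := barrier_D
  have h3 := barrier_product
  have h4 : min (4 * barrier D) (barrier D * 4) = 4 * barrier D := by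
    rw [mul_comm (barrier D) 4, min_self]
  rw [h4] at h1
  omega

end Pool.Agent.Results.MP_998457_co.BarrierCounterexample
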